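import Pool.Agent.H21.ASY.Stmts

/-! Row EXC of the board `asy`. -/

set_option autoImplicit false

namespace Pool.ASY

open Finset Pool.Agent.H98.ABCR
open scoped ArithmeticFunction.Moebius

namespace EX37

theorem rad_dvd (n : ℕ) : rad n ∣ n := Nat.prod_primeFactors_dvd n

theorem rad_pos (n : ℕ) : 0 < rad n := Finset.prod_pos fun p hp => (Nat.prime_of_mem_primeFactors hp).pos

theorem eq_mul (n : ℕ) : n = rad n * exc n := (Nat.mul_div_cancel' (rad_dvd n)).symm

theorem exc_pos {n : ℕ} (hn : 0 < n) : 0 < exc n := by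
  rcases Nat.eq_zero_or_pos (exc n) with h | h
  · have := eq_mul n
    rw [h, mul_zero] at this
    omega
  · exact h

theorem rad_mul {m n : ℕ} (h : m.Coprime n) : rad (m * n) = rad m * rad n := by
  unfold rad
  rw [h.primeFactors_mul, Finset.prod_union h.disjoint_primeFactors]

theorem rad_mul_le {j m : ℕ} (hj : j ≠ 0) (hm : m ≠ 0) : rad (j * m) ≤ rad j * m := by
  have h1 : rad (j * m) ≤ rad j * rad m := by
    unfold rad
    rw [Nat.primeFactors_mul hj hm, ← Finset.prod_union_inter]
    apply Nat.le_mul_of_pos_right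
    exact Finset.prod_pos fun p hp => (Nat.prime_of_mem_primeFactors (Finset.mem_inter.1 hp).1).pos
  exact h1.trans (Nat.mul_le_mul_left _ (Nat.le_of_dvd (Nat.pos_of_ne_zero hm) (rad_dvd m)))

theorem exc_le {j d : ℕ} (hd : 0 < d) (h : j ∣ d) : exc j ≤ exc d := by
  obtain ⟨m, rfl⟩ := h
  have hj : j ≠ 0 := fun h0 => by rw [h0, zero_mul] at hd; exact lt_irrefl _ hd
  have hm : m ≠ 0 := fun h0 => by rw [h0, mul_zero] at hd; exact lt_irrefl _ hd
  have h1 := rad_mul_le hj hm
  have h2 := eq_mul (j * m)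
  have h3 := eq_mul j
  have h4 : rad (j * m) * exc j ≤ rad (j * m) * exc (j * m) := by
    calc rad (j * m) * exc j ≤ rad j * m * exc j := Nat.mul_le_mul_right _ h1
      _ = (rad j * exc j) * m := by ring
      _ = j * m := by rw [← h3]
      _ = rad (j * m) * exc (j * m) := h2
  exact Nat.le_of_mul_le_mul_left h4 (rad_pos _)

theorem sum_mu {d : ℕ} (hd : 0 < d) :
    ∑ j ∈ d.divisors, |((μ (d / j) : ℤ) : ℝ)| = 2 ^ om d := by
  rw [Nat.sum_div_divisors d (fun j => |((μ j : ℤ) : ℝ)|)]
  have h1 : ∀ j ∈ d.divisors, |((μ j : ℤ) : ℝ)| = if Squarefree j then 1 else 0 := by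
    intro j _
    split_ifs with hs
    · rw [← Int.cast_abs, ArithmeticFunction.abs_moebius_eq_one_of_squarefree hs, Int.cast_one]
    · rw [ArithmeticFunction.moebius_eq_zero_of_not_squarefree hs, Int.cast_zero, abs_zero]
  rw [Finset.sum_congr rfl h1, ← Finset.sum_filter, Finset.sum_const, nsmul_eq_mul, mul_one]
  have h2 := congrArg Multiset.card (Nat.divisors_filter_squarefree hd.ne')
  rw [Multiset.card_map] at h2
  have h3 : ((Finset.filter Squarefree d.divisors).card : ℝ)
      = ((2 ^ (UniqueFactorizationMonoid.normalizedFactors d).toFinset.card : ℕ) : ℝ) := by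
    rw [← Finset.card_powerset]
    exact_mod_cast h2
  rw [h3]
  have h4 : (UniqueFactorizationMonoid.normalizedFactors d).toFinset = d.primeFactors := by
    rw [Nat.factors_eq]
    rfl
  rw [h4]
  push_cast
  rfl

end EX37

open EX37

theorem exc_thm : S_EXC := by
  refine ⟨fun n hn => ⟨eq_mul n, exc_pos hn⟩, ?_, ?_, ?_, fun j d hd h => exc_le hd h,
    fun d hd => sum_mu hd⟩
  · intro n X hn
    have h1 : (n : ℝ) = rad n * exc n := by exact_mod_cast eq_mul n
    have h2 : (0 : ℝ) < exc n := by exact_mod_cast exc_pos hn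
    rw [h1]
    exact (mul_le_mul_iff_left₀ h2).symm
  · intro m n h
    unfold exc
    rw [rad_mul h, Nat.div_mul_div_comm (rad_dvd m) (rad_dvd n)]
  · intro p e hp
    have h1 : rad (p ^ (e + 1)) = p := by
      unfold rad
      rw [Nat.primeFactors_prime_pow (Nat.succ_ne_zero e) hp, Finset.prod_singleton]
    unfold exc
    rw [h1, pow_succ, Nat.mul_div_cancel _ hp.pos]

end Pool.ASY
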