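import Pool.Agent.H21.ASY.Stmts

/-! Row FAC of the board `asy`. -/

set_option autoImplicit false

namespace Pool.ASY

open Finset Pool.Agent.H98.ABCR
open scoped ArithmeticFunction.Moebius

namespace FA37

/-- The prime power of `d`. -/
def qq (d p : ℕ) : ℕ := p ^ d.factorization p

/-- The factor of `d` of the primes with the value `i`. -/
def ki (d : ℕ) (i : Fin 3) (c : d.primeFactors → Fin 3) : ℕ :=
  ∏ p : d.primeFactors, if c p = i then qq d p else 1

variable {d : ℕ}

theorem prime (p : d.primeFactors) : (p : ℕ).Prime := Nat.prime_of_mem_primeFactors p.2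

theorem fac_ne (p : d.primeFactors) : d.factorization p ≠ 0 := by
  have h : (p : ℕ) ∈ d.factorization.support := by
    rw [Nat.support_factorization]
    exact p.2
  exact Finsupp.mem_support_iff.1 h

theorem qq_gt (p : d.primeFactors) : 1 < qq d p := one_lt_pow₀ (prime p).one_lt (fac_ne p)

theorem dvd_qq (p : d.primeFactors) : (p : ℕ) ∣ qq d p := dvd_pow_self _ (fac_ne p)

theorem qq_cop {p p' : d.primeFactors} (h : p ≠ p') : (qq d p).Coprime (qq d p') :=
  Nat.Coprime.pow _ _ ((Nat.coprime_primes (prime p) (prime p')).2 fun h0 => h (Subtype.ext h0))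

theorem prod_qq (hd : d ≠ 0) : ∏ p : d.primeFactors, qq d p = d := by
  rw [Finset.prod_coe_sort d.primeFactors (fun p => qq d p)]
  exact Nat.prod_factorization_pow_eq_self hd

theorem prod_ki (hd : d ≠ 0) (c : d.primeFactors → Fin 3) : ki d 0 c * ki d 1 c * ki d 2 c = d := by
  unfold ki
  rw [← Finset.prod_mul_distrib, ← Finset.prod_mul_distrib]
  refine Eq.trans (Finset.prod_congr rfl fun p _ => ?_) (prod_qq hd)
  generalize c p = i
  revert i
  intro i
  fin_cases i
  · simp
  · simp
  · simp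

theorem ki_cop {i j : Fin 3} (h : i ≠ j) (c : d.primeFactors → Fin 3) :
    (ki d i c).Coprime (ki d j c) := by
  unfold ki
  refine Nat.Coprime.prod_left fun p _ => Nat.Coprime.prod_right fun p' _ => ?_
  by_cases h1 : c p = i
  · by_cases h2 : c p' = j
    · rw [if_pos h1, if_pos h2]
      refine qq_cop fun h0 => h ?_
      rw [← h1, ← h2, h0]
    · rw [if_neg h2]
      exact Nat.coprime_one_right _
  · rw [if_neg h1]
    exact Nat.coprime_one_left _

theorem ki_dvd {i : Fin 3} {c : d.primeFactors → Fin 3} {x : ℕ} :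
    ki d i c ∣ x ↔ ∀ p, c p = i → qq d p ∣ x := by
  constructor
  · intro h p hp
    have h1 : (if c p = i then qq d p else 1) ∣ ki d i c := Finset.dvd_prod_of_mem _ (Finset.mem_univ p)
    rw [if_pos hp] at h1
    exact h1.trans h
  · intro h
    unfold ki
    apply Finset.prod_dvd_of_isRelPrime
    · intro p _ p' _ hne
      rw [Function.onFun, ← Nat.coprime_iff_isRelPrime]
      by_cases h1 : c p = i
      · by_cases h2 : c p' = i
        · rw [if_pos h1, if_pos h2]
          exact qq_cop hne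
        · rw [if_neg h2]
          exact Nat.coprime_one_right _
      · rw [if_neg h1]
        exact Nat.coprime_one_left _
    · intro p _
      by_cases h1 : c p = i
      · rw [if_pos h1]
        exact h p h1
      · rw [if_neg h1]
        exact one_dvd _

theorem dvd_ki {i : Fin 3} {c : d.primeFactors → Fin 3} (p : d.primeFactors) :
    (p : ℕ) ∣ ki d i c ↔ c p = i := by
  constructor
  · intro h
    unfold ki at h
    obtain ⟨p', -, h'⟩ := (Prime.dvd_finsetProd_iff (Nat.prime_iff.1 (prime p)) _).1 h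
    by_cases h1 : c p' = i
    · rw [if_pos h1] at h'
      have h2 := (Nat.prime_dvd_prime_iff_eq (prime p) (prime p')).1 ((prime p).dvd_of_dvd_pow h')
      rw [Subtype.ext h2]
      exact h1
    · rw [if_neg h1] at h'
      exact absurd (Nat.dvd_one.1 h') (prime p).one_lt.ne'
  · intro h
    exact (dvd_qq p).trans (ki_dvd.1 dvd_rfl p h)

/-- The triple. -/
def tr (d : ℕ) (c : d.primeFactors → Fin 3) : ℕ × ℕ × ℕ := (ki d 0 c, ki d 1 c, ki d 2 c)

theorem tr_inj : Function.Injective (tr d) := by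
  intro c c' h
  have h0 : ki d 0 c = ki d 0 c' := (Prod.mk.inj h).1
  have h1 : ki d 1 c = ki d 1 c' := (Prod.mk.inj (Prod.mk.inj h).2).1
  have h2 : ki d 2 c = ki d 2 c' := (Prod.mk.inj (Prod.mk.inj h).2).2
  funext p
  have key : ∀ i : Fin 3, ki d i c = ki d i c' := by
    intro i
    fin_cases i
    · exact h0
    · exact h1
    · exact h2
  symm
  rw [← dvd_ki (i := c p) p, ← key]
  exact (dvd_ki p).2 rfl

/-- The value of the prime `p` for the pair `v`. -/
def cv (d : ℕ) (v : ℕ × ℕ) (p : d.primeFactors) : Fin 3 :=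
  if qq d p ∣ v.1 then 0 else if qq d p ∣ v.2 then 1 else 2

theorem not_both {x y q : ℕ} (hq : 1 < q) (h : x.Coprime y) (hx : q ∣ x) : ¬ q ∣ y := by
  intro hy
  have := Nat.dvd_gcd hx hy
  rw [h.gcd_eq_one] at this
  have := Nat.le_of_dvd Nat.one_pos this
  omega

theorem qq_three {v : ℕ × ℕ} (hc : v.1.Coprime v.2) (p : d.primeFactors) (h : qq d p ∣ nn v) :
    qq d p ∣ v.1 ∨ qq d p ∣ v.2 ∨ qq d p ∣ v.1 + v.2 := by
  have h12 := hc
  have h13 : v.1.Coprime (v.1 + v.2) := by
    rw [Nat.coprime_self_add_right]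
    exact hc
  have h23 : v.2.Coprime (v.1 + v.2) := by
    rw [Nat.coprime_add_self_right]
    exact hc.symm
  have hp := prime p
  have hpn : (p : ℕ) ∣ v.1 * v.2 * (v.1 + v.2) := (dvd_qq p).trans h
  have aux : ∀ x y : ℕ, x.Coprime y → (p : ℕ) ∣ x → qq d p ∣ y * x → qq d p ∣ x := by
    intro x y hxy hpx hq
    apply Nat.Coprime.dvd_of_dvd_mul_left _ hq
    exact Nat.Coprime.pow_left _ ((Nat.Prime.coprime_iff_not_dvd hp).2
      (not_both hp.one_lt hxy hpx))
  rcases (Nat.Prime.dvd_mul hp).1 hpn with h1 | h1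
  · rcases (Nat.Prime.dvd_mul hp).1 h1 with h2 | h2
    · left
      refine aux v.1 (v.2 * (v.1 + v.2)) (Nat.Coprime.mul_right h12 h13) h2 ?_
      have e : v.2 * (v.1 + v.2) * v.1 = v.1 * v.2 * (v.1 + v.2) := by ring
      rw [e]
      exact h
    · right; left
      refine aux v.2 (v.1 * (v.1 + v.2)) (Nat.Coprime.mul_right h12.symm h23) h2 ?_
      have e : v.1 * (v.1 + v.2) * v.2 = v.1 * v.2 * (v.1 + v.2) := by ring
      rw [e]
      exact h
  · right; right
    exact aux (v.1 + v.2) (v.1 * v.2) (Nat.Coprime.mul_right h13.symm h23.symm) h1 h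

theorem fiber {v : ℕ × ℕ} (hd : d ≠ 0) (hc : v.1.Coprime v.2) (c : d.primeFactors → Fin 3) :
    (d ∣ nn v ∧ cv d v = c) ↔ (ki d 0 c ∣ v.1 ∧ ki d 1 c ∣ v.2 ∧ ki d 2 c ∣ v.1 + v.2) := by
  have h13 : v.1.Coprime (v.1 + v.2) := by
    rw [Nat.coprime_self_add_right]
    exact hc
  have h23 : v.2.Coprime (v.1 + v.2) := by
    rw [Nat.coprime_add_self_right]
    exact hc.symm
  constructor
  · rintro ⟨hn, rfl⟩
    have hq : ∀ p : d.primeFactors, qq d p ∣ v.1 ∨ qq d p ∣ v.2 ∨ qq d p ∣ v.1 + v.2 := fun p =>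
      qq_three hc p ((Nat.ordProj_dvd d p).trans hn)
    refine ⟨ki_dvd.2 fun p hp => ?_, ki_dvd.2 fun p hp => ?_, ki_dvd.2 fun p hp => ?_⟩
    · unfold cv at hp
      by_contra h
      rw [if_neg h] at hp
      by_cases h' : qq d p ∣ v.2
      · rw [if_pos h'] at hp
        exact absurd hp (by decide)
      · rw [if_neg h'] at hp
        exact absurd hp (by decide)
    · unfold cv at hp
      by_contra h
      by_cases h' : qq d p ∣ v.1
      · rw [if_pos h'] at hp
        exact absurd hp (by decide)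
      · rw [if_neg h', if_neg h] at hp
        exact absurd hp (by decide)
    · unfold cv at hp
      by_cases h : qq d p ∣ v.1
      · rw [if_pos h] at hp
        exact absurd hp (by decide)
      · by_cases h' : qq d p ∣ v.2
        · rw [if_neg h, if_pos h'] at hp
          exact absurd hp (by decide)
        · rcases hq p with h1 | h1 | h1
          · exact absurd h1 h
          · exact absurd h1 h'
          · exact h1
  · rintro ⟨h0, h1, h2⟩
    constructor
    · have h := prod_ki hd c
      unfold nn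
      rw [← h]
      exact Nat.mul_dvd_mul (Nat.mul_dvd_mul h0 h1) h2
    · funext p
      unfold cv
      have hcp : c p = 0 ∨ c p = 1 ∨ c p = 2 := by
        generalize c p = i
        fin_cases i
        · exact Or.inl rfl
        · exact Or.inr (Or.inl rfl)
        · exact Or.inr (Or.inr rfl)
      rcases hcp with h | h | h
      · rw [if_pos (ki_dvd.1 h0 p h), h]
      · rw [if_neg (not_both (qq_gt p) hc.symm (ki_dvd.1 h1 p h)), if_pos (ki_dvd.1 h1 p h), h]
      · rw [if_neg (not_both (qq_gt p) h13.symm (ki_dvd.1 h2 p h)),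
          if_neg (not_both (qq_gt p) h23.symm (ki_dvd.1 h2 p h)), h]

end FA37

open FA37

theorem fac_thm : S_FAC := by
  intro d hd
  refine ⟨Finset.univ.image (tr d), ?_, ?_, ?_⟩
  · rw [Finset.card_image_of_injective _ tr_inj, Finset.card_univ, Fintype.card_fun,
      Fintype.card_fin, Fintype.card_coe]
    rfl
  · intro k hk
    obtain ⟨c, -, rfl⟩ := Finset.mem_image.1 hk
    exact ⟨prod_ki hd.ne' c, ki_cop (by decide) c, ki_cop (by decide) c, ki_cop (by decide) c⟩
  · intro T Z
    rw [Finset.sum_image fun c _ c' _ h => tr_inj h]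
    unfold MM
    rw [Finset.card_eq_sum_card_fiberwise (f := cv d) (t := Finset.univ) fun v _ => Finset.mem_univ _]
    apply Finset.sum_congr rfl
    intro c _
    unfold MK
    congr 1
    ext v
    rw [Finset.mem_filter, Finset.mem_filter, Finset.mem_filter]
    constructor
    · rintro ⟨⟨hv, h1, h2⟩, h3⟩
      have hc : v.1.Coprime v.2 := (Finset.mem_filter.1 hv).2.1
      obtain ⟨g0, g1, g2⟩ := (fiber hd.ne' hc c).1 ⟨h1, h3⟩
      exact ⟨hv, g0, g1, g2, h2⟩
    · rintro ⟨hv, g0, g1, g2, h2⟩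
      have hc : v.1.Coprime v.2 := (Finset.mem_filter.1 hv).2.1
      obtain ⟨h1, h3⟩ := (fiber hd.ne' hc c).2 ⟨g0, g1, g2⟩
      exact ⟨⟨hv, h1, h2⟩, h3⟩

end Pool.ASY
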