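import Pool.Agent.H21.ASY.Stmts

/-! Row GCM of the board `asy`. -/

set_option autoImplicit false

namespace Pool.ASY

open Finset Pool.Agent.H98.ABCR
open scoped ArithmeticFunction.Moebius

namespace GM37

theorem dvd_iff {k e a : ℕ} (hk : 0 < k) : k ∣ e * a ↔ k / k.gcd e ∣ a := by
  have hg : 0 < k.gcd e := Nat.gcd_pos_of_pos_left e hk
  have hc := Nat.coprime_div_gcd_div_gcd hg
  have h1 : k = k.gcd e * (k / k.gcd e) := (Nat.mul_div_cancel' (Nat.gcd_dvd_left k e)).symm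
  have h2 : e = k.gcd e * (e / k.gcd e) := (Nat.mul_div_cancel' (Nat.gcd_dvd_right k e)).symm
  constructor
  · intro h
    have h3 : k.gcd e * (k / k.gcd e) ∣ k.gcd e * ((e / k.gcd e) * a) := by
      rw [← h1, ← mul_assoc, ← h2]
      exact h
    exact hc.dvd_of_dvd_mul_left (Nat.dvd_of_mul_dvd_mul_left hg h3)
  · intro h
    have h3 : k.gcd e * (k / k.gcd e) ∣ k.gcd e * ((e / k.gcd e) * a) :=
      Nat.mul_dvd_mul_left _ (Dvd.dvd.mul_left h _)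
    rw [← h1, ← mul_assoc, ← h2] at h3
    exact h3

theorem mem_icc {Z : ℝ} (hZ : 0 ≤ Z) {a : ℕ} : a ∈ Icc 1 ⌊Z⌋₊ ↔ 0 < a ∧ (a : ℝ) ≤ Z := by
  rw [Finset.mem_Icc, Nat.le_floor_iff hZ]
  exact Iff.rfl

/-- The sum of the values of the Moebius function. -/
theorem mu_sum {a b N : ℕ} (ha : 0 < a) (haN : a ≤ N) :
    ∑ e ∈ (Icc 1 N).filter (fun e => e ∣ a ∧ e ∣ b), ((μ e : ℤ) : ℝ) = if a.Coprime b then 1 else 0 := by
  have h1 : (Icc 1 N).filter (fun e => e ∣ a ∧ e ∣ b) = (a.gcd b).divisors := by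
    ext e
    rw [Finset.mem_filter, Finset.mem_Icc, Nat.mem_divisors, Nat.dvd_gcd_iff]
    constructor
    · rintro ⟨-, h2, h3⟩
      exact ⟨⟨h2, h3⟩, (Nat.gcd_pos_of_pos_left b ha).ne'⟩
    · rintro ⟨⟨h2, h3⟩, -⟩
      exact ⟨⟨Nat.pos_of_dvd_of_pos h2 ha, (Nat.le_of_dvd ha h2).trans haN⟩, h2, h3⟩
  rw [h1, ← Int.cast_sum]
  have h2 : ∑ e ∈ (a.gcd b).divisors, μ e = if a.gcd b = 1 then 1 else 0 := by
    rw [← ArithmeticFunction.coe_mul_zeta_apply, ArithmeticFunction.moebius_mul_coe_zeta,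
      ArithmeticFunction.one_apply]
  rw [h2]
  by_cases h : a.gcd b = 1
  · rw [if_pos h, if_pos h, Int.cast_one]
  · rw [if_neg h, if_neg h, Int.cast_zero]

/-- The pairs divisible by `e`. -/
theorem card_e {T Z : ℝ} {k1 k2 k3 e : ℕ} (hZ : 0 ≤ Z) (h1 : 0 < k1) (h2 : 0 < k2) (h3 : 0 < k3)
    (he : 0 < e) :
    (((Icc 1 ⌊Z⌋₊ ×ˢ Icc 1 ⌊Z⌋₊).filter (fun v => k1 ∣ v.1 ∧ k2 ∣ v.2 ∧ k3 ∣ v.1 + v.2 ∧
      ((v.1 + v.2 : ℕ) : ℝ) ≤ Z ∧ ((nn v : ℕ) : ℝ) ≤ T)).filter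
        (fun v => e ∣ v.1 ∧ e ∣ v.2)).card =
      LC (T / (e : ℝ) ^ 3) (Z / e) (k1 / k1.gcd e) (k2 / k2.gcd e) (k3 / k3.gcd e) := by
  have heR : (0 : ℝ) < e := by exact_mod_cast he
  have hZe : 0 ≤ Z / e := div_nonneg hZ heR.le
  unfold LC
  symm
  apply Finset.card_bij (fun v _ => (e * v.1, e * v.2))
  · rintro ⟨a, b⟩ hv
    rw [Finset.mem_filter, Finset.mem_product, mem_icc hZe, mem_icc hZe] at hv
    obtain ⟨⟨⟨ha, haZ⟩, hb, hbZ⟩, c1, c2, c3, c4, c5⟩ := hv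
    dsimp only at ha haZ hb hbZ c1 c2 c3 c4 c5 ⊢
    rw [Finset.mem_filter, Finset.mem_filter, Finset.mem_product, mem_icc hZ, mem_icc hZ]
    dsimp only
    refine ⟨⟨⟨⟨Nat.mul_pos he ha, ?_⟩, Nat.mul_pos he hb, ?_⟩, (dvd_iff h1).2 c1, (dvd_iff h2).2 c2,
      ?_, ?_, ?_⟩, Dvd.intro _ rfl, Dvd.intro _ rfl⟩
    · push_cast
      rw [mul_comm]
      exact (le_div_iff₀ heR).1 haZ
    · push_cast
      rw [mul_comm]
      exact (le_div_iff₀ heR).1 hbZ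
    · rw [← mul_add]
      exact (dvd_iff h3).2 c3
    · have h := (le_div_iff₀ heR).1 c4
      rw [← mul_add]
      push_cast at h ⊢
      linarith only [h]
    · have h := (le_div_iff₀ (pow_pos heR 3)).1 c5
      have h' : ((nn (e * a, e * b) : ℕ) : ℝ) = ((nn (a, b) : ℕ) : ℝ) * (e : ℝ) ^ 3 := by
        unfold nn
        push_cast
        ring
      rw [h']
      exact h
  · rintro ⟨a, b⟩ - ⟨a', b'⟩ - h
    have h' := Prod.mk.inj h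
    exact Prod.ext (Nat.eq_of_mul_eq_mul_left he h'.1) (Nat.eq_of_mul_eq_mul_left he h'.2)
  · rintro ⟨a, b⟩ hv
    rw [Finset.mem_filter, Finset.mem_filter, Finset.mem_product, mem_icc hZ, mem_icc hZ] at hv
    obtain ⟨⟨⟨⟨ha, haZ⟩, hb, hbZ⟩, c1, c2, c3, c4, c5⟩, ⟨a', rfl⟩, ⟨b', rfl⟩⟩ := hv
    dsimp only at ha haZ hb hbZ c1 c2 c3 c4 c5
    refine ⟨(a', b'), ?_, rfl⟩
    rw [Finset.mem_filter, Finset.mem_product, mem_icc hZe, mem_icc hZe]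
    dsimp only
    refine ⟨⟨⟨Nat.pos_of_mul_pos_left ha, ?_⟩, Nat.pos_of_mul_pos_left hb, ?_⟩, (dvd_iff h1).1 c1,
      (dvd_iff h2).1 c2, ?_, ?_, ?_⟩
    · rw [le_div_iff₀ heR, mul_comm]
      exact_mod_cast haZ
    · rw [le_div_iff₀ heR, mul_comm]
      exact_mod_cast hbZ
    · rw [← mul_add] at c3
      exact (dvd_iff h3).1 c3
    · rw [le_div_iff₀ heR]
      push_cast at c4 ⊢
      linarith only [c4]
    · rw [le_div_iff₀ (pow_pos heR 3)]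
      have h' : ((nn (e * a', e * b') : ℕ) : ℝ) = ((nn (a', b') : ℕ) : ℝ) * (e : ℝ) ^ 3 := by
        unfold nn
        push_cast
        ring
      rw [← h']
      exact c5

end GM37

open GM37

theorem gcm_thm : S_GCM := by
  intro T Z k1 k2 k3 hZ h1 h2 h3
  set S := (Icc 1 ⌊Z⌋₊ ×ˢ Icc 1 ⌊Z⌋₊).filter (fun v : ℕ × ℕ => k1 ∣ v.1 ∧ k2 ∣ v.2 ∧
    k3 ∣ v.1 + v.2 ∧ ((v.1 + v.2 : ℕ) : ℝ) ≤ Z ∧ ((nn v : ℕ) : ℝ) ≤ T) with hS
  have hMK : (MK T Z k1 k2 k3 : ℝ) = ∑ v ∈ S, if v.1.Coprime v.2 then (1 : ℝ) else 0 := by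
    rw [← Finset.sum_filter, Finset.sum_const, nsmul_eq_mul, mul_one]
    unfold MK
    congr 2
    ext v
    unfold box
    rw [hS, Finset.mem_filter, Finset.mem_filter, Finset.mem_filter, Finset.mem_filter]
    tauto
  rw [hMK]
  have h4 : ∀ v ∈ S, (if v.1.Coprime v.2 then (1 : ℝ) else 0) =
      ∑ e ∈ Icc 1 ⌊Z⌋₊, if e ∣ v.1 ∧ e ∣ v.2 then ((μ e : ℤ) : ℝ) else 0 := by
    intro v hv
    rw [hS, Finset.mem_filter, Finset.mem_product, Finset.mem_Icc] at hv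
    rw [← Finset.sum_filter, mu_sum hv.1.1.1 hv.1.1.2]
  rw [Finset.sum_congr rfl h4, Finset.sum_comm]
  apply Finset.sum_congr rfl
  intro e he
  rw [← card_e hZ h1 h2 h3 (Finset.mem_Icc.1 he).1, ← Finset.sum_filter, Finset.sum_const,
    nsmul_eq_mul, mul_comm]

end Pool.ASY
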